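import Pool.Agent.Y165.PC.Kk
import Pool.Agent.H712R2.Par

/-!
# Circle averages of `log ‖ψ - z‖`
-/

set_option autoImplicit false

namespace Pool.Agent.Y165.PC

open Complex Metric Set Filter Topology Pool.Agent.H712R2 Pool.Agent.H713R2 N62a1eb23
open Pool.Agent.Y811.PC

/-- the derivative at the zero -/
lemma deriv_kk_ne {d : ℕ} {β ψ : ℂ → ℂ} {r : ℝ} (hβ : IsBeta d β)
    (hψ : IsExteriorMap (multibrotSet d) ψ) (hr : 1 < r) {w : ℂ} (hw : 1 < ‖w‖) :
    deriv (kk β r (ψ w)) (r / w) ≠ 0 := by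
  have hr0 : 0 < r := by linarith
  have hrC : (r : ℂ) ≠ 0 := by exact_mod_cast hr0.ne'
  have hw0 : w ≠ 0 := by
    rw [← norm_pos_iff]
    linarith
  set y₁ : ℂ := r / w with hy₁
  have hy₁0 : y₁ ≠ 0 := div_ne_zero hrC hw0
  have hry : (r : ℂ) / y₁ = w := by
    rw [hy₁]
    field_simp
  have hy₁b : y₁ ∈ ball (0 : ℂ) r := by
    rw [mem_ball_zero_iff, hy₁, norm_div, Complex.norm_real, Real.norm_eq_abs, abs_of_pos hr0]
    exact div_lt_self hr0 hw
  have hopen : IsOpen {z : ℂ | 1 < ‖z‖} := isOpen_lt continuous_const continuous_norm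
  have hψ' : DifferentiableAt ℂ ψ w := hψ.diff.differentiableAt (hopen.mem_nhds hw)
  have hd : deriv ψ w ≠ 0 := Pool.Agent.H712R2.M.deriv_ne_zero_of_injOn' hopen hψ.diff hψ.inj hw
  have h1 : HasDerivAt (fun y : ℂ => (r : ℂ) * y⁻¹) ((r : ℂ) * (-(y₁ ^ 2)⁻¹)) y₁ :=
    (hasDerivAt_inv hy₁0).const_mul _
  have h2 : HasDerivAt ψ (deriv ψ w) ((r : ℂ) * y₁⁻¹) := by
    rw [← div_eq_mul_inv, hry]
    exact hψ'.hasDerivAt
  have h3 : HasDerivAt (fun y : ℂ => ψ ((r : ℂ) * y⁻¹) - ψ w)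
      (deriv ψ w * ((r : ℂ) * (-(y₁ ^ 2)⁻¹))) y₁ := (h2.comp y₁ h1).sub_const _
  have h4 : HasDerivAt (fun y : ℂ => y / r) ((1 : ℂ) / r) y₁ := (hasDerivAt_id y₁).div_const _
  have h5 := h4.mul h3
  have h6 : (fun y : ℂ => y / r) * (fun y : ℂ => ψ ((r : ℂ) * y⁻¹) - ψ w) =ᶠ[𝓝 y₁]
      kk β r (ψ w) := by
    filter_upwards [isOpen_ball.mem_nhds hy₁b, isOpen_ne.mem_nhds hy₁0] with y hy hy0
    have hy0' : y ≠ 0 := hy0
    simp only [Pi.mul_apply]
    rw [← div_eq_mul_inv, psi_kk hβ hψ hr0 hy0' hy]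
    field_simp
  have h7 := h5.congr_of_eventuallyEq h6.symm
  rw [h7.deriv]
  have h8 : ψ ((r : ℂ) * y₁⁻¹) - ψ w = 0 := by
    rw [← div_eq_mul_inv, hry, sub_self]
  rw [h8, mul_zero, zero_add]
  refine mul_ne_zero (div_ne_zero hy₁0 hrC) (mul_ne_zero hd (mul_ne_zero hrC ?_))
  exact neg_ne_zero.2 (inv_ne_zero (pow_ne_zero 2 hy₁0))

theorem t_HM1 : S_HM1 := by
  intro d hd ψ hψ r hr
  obtain ⟨β, hβ⟩ := exists_beta hd
  have hr0 : 0 < r := by linarith
  have hrC : (r : ℂ) ≠ 0 := by exact_mod_cast hr0.ne'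
  constructor
  · intro z hz
    rw [avg_eq hβ hψ hr Real.log,
      AnalyticOnNhd.circleAverage_log_norm_of_ne_zero (kk_analytic hβ hr)]
    · rw [kk_zero hβ, mul_one, Complex.norm_real, Real.norm_eq_abs, abs_of_pos hr0]
    · intro u hu
      exact mul_ne_zero hrC (kk_ne hβ hψ hr0 hz (closedBall_sub hr hu))
  · intro w hw
    have hw0 : w ≠ 0 := by
      rw [← norm_pos_iff]
      linarith
    have hwpos : 0 < ‖w‖ := norm_pos_iff.2 hw0
    rw [avg_eq hβ hψ hr Real.log]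
    set y₁ : ℂ := r / w with hy₁
    have hy₁0 : y₁ ≠ 0 := div_ne_zero hrC hw0
    have hry : (r : ℂ) / y₁ = w := by
      rw [hy₁]
      field_simp
    have hny : ‖y₁‖ = r / ‖w‖ := by
      rw [hy₁, norm_div, Complex.norm_real, Real.norm_eq_abs, abs_of_pos hr0]
    have hy₁b : y₁ ∈ ball (0 : ℂ) r := by
      rw [mem_ball_zero_iff, hny]
      exact div_lt_self hr0 hw
    have hk1 : kk β r (ψ w) y₁ = 0 := by
      have h1 := psi_kk (z := ψ w) hβ hψ hr0 hy₁0 hy₁b
      rw [hry, sub_self] at h1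
      exact (mul_eq_zero.1 h1.symm).resolve_left hw0
    set D : ℂ → ℂ := dslope (kk β r (ψ w)) y₁ with hD
    have hDd : DifferentiableOn ℂ D (ball 0 r) :=
      (Complex.differentiableOn_dslope (isOpen_ball.mem_nhds hy₁b)).2 (kk_diff hβ hr0)
    have hDk : ∀ y, (y - y₁) * D y = kk β r (ψ w) y := by
      intro y
      have h1 := sub_smul_dslope (kk β r (ψ w)) y₁ y
      rw [hk1, sub_zero, smul_eq_mul] at h1
      exact h1
    have hDne : ∀ y ∈ ball (0 : ℂ) r, D y ≠ 0 := by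
      intro y hy hy0
      by_cases hyy : y = y₁
      · rw [hyy, hD, dslope_same] at hy0
        exact deriv_kk_ne hβ hψ hr hw hy0
      · have h1 : kk β r (ψ w) y = 0 := by rw [← hDk, hy0, mul_zero]
        obtain ⟨h2, h3⟩ := kk_eq_zero hβ hψ hr0 hy h1
        have h4 : (r : ℂ) / y = w := hψ.inj (one_lt_norm_div h2 hr0 hy) hw h3
        apply hyy
        rw [hy₁, ← h4]
        field_simp
    have hrD : AnalyticOnNhd ℂ (fun y => (r : ℂ) * D y) (closedBall 0 |(1 : ℝ)|) := by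
      have h1 : AnalyticOnNhd ℂ (fun y => (r : ℂ) * D y) (ball 0 r) :=
        analyticOnNhd_const.mul (hDd.analyticOnNhd isOpen_ball)
      exact h1.mono (closedBall_sub hr)
    have hsplit : Real.circleAverage (fun y => Real.log ‖(r : ℂ) * kk β r (ψ w) y‖) 0 1 =
        Real.circleAverage ((fun y => Real.log ‖y - y₁‖) + fun y => Real.log ‖(r : ℂ) * D y‖)
          0 1 := by
      apply Real.circleAverage_congr_codiscreteWithin _ one_ne_zero
      filter_upwards [compl_singleton_mem_codiscreteWithin (s := sphere (0 : ℂ) |(1 : ℝ)|) y₁,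
        self_mem_codiscreteWithin (sphere (0 : ℂ) |(1 : ℝ)|)] with y hy hys
      have hyb : y ∈ ball (0 : ℂ) r := closedBall_sub hr (sphere_subset_closedBall hys)
      have hy1 : y - y₁ ≠ 0 := sub_ne_zero.2 hy
      simp only [Pi.add_apply]
      rw [← Real.log_mul (norm_ne_zero_iff.2 hy1)
        (norm_ne_zero_iff.2 (mul_ne_zero hrC (hDne y hyb))), ← norm_mul, ← hDk]
      congr 2
      ring
    rw [hsplit, Real.circleAverage_add]
    · have h1 : Real.circleAverage (fun y => Real.log ‖y - y₁‖) 0 1 = Real.posLog ‖y₁‖ :=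
        circleAverage_log_norm_sub_const_eq_posLog
      rw [h1, AnalyticOnNhd.circleAverage_log_norm_of_ne_zero hrD]
      · have h2 : D 0 = -y₁⁻¹ := by
          rw [hD, dslope_of_ne _ (Ne.symm hy₁0), slope_def_field, hk1, kk_zero hβ]
          rw [zero_sub, sub_zero, one_div, inv_neg]
        rw [h2, mul_neg, norm_neg, ← div_eq_mul_inv, hry, hny, Real.posLog_eq_log_max_one
          (by positivity), ← Real.log_mul (by positivity) hwpos.ne',
          max_mul_of_nonneg _ _ hwpos.le, one_mul, div_mul_cancel₀ _ hwpos.ne', max_comm]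
      · intro u hu
        exact mul_ne_zero hrC (hDne u (closedBall_sub hr hu))
    · exact circleIntegrable_log_norm_sub_const 1
    · apply MeromorphicOn.circleIntegrable_log_norm
      intro x hx
      exact (hrD x (sphere_subset_closedBall hx)).meromorphicAt

end Pool.Agent.Y165.PC
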