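import Pool.Agent.Y165.PC.Kk

/-!
# Poisson estimate
-/

set_option autoImplicit false

namespace Pool.Agent.Y165.PC

open Complex Metric Set Filter Topology Pool.Agent.H712R2 Pool.Agent.H713R2 N62a1eb23
open Pool.Agent.Y811.PC

theorem t_HM3 : S_HM3 := by
  intro d hd ψ hψ c₀ w r ρ hc₀ hr hrw hρ
  obtain ⟨β, hβ⟩ := exists_beta hd
  have hr0 : 0 < r := by linarith
  have hrC : (r : ℂ) ≠ 0 := by exact_mod_cast hr0.ne'
  have hρC : (ρ : ℂ) ≠ 0 := by exact_mod_cast hρ.ne'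
  have hwpos : 0 < ‖w‖ := by linarith
  have hw0 : w ≠ 0 := norm_pos_iff.1 hwpos
  set y₁ : ℂ := r / w with hy₁
  have hy₁0 : y₁ ≠ 0 := div_ne_zero hrC hw0
  have hry : (r : ℂ) / y₁ = w := by
    rw [hy₁]
    field_simp
  have hny : ‖y₁‖ = r / ‖w‖ := by
    rw [hy₁, norm_div, Complex.norm_real, Real.norm_eq_abs, abs_of_pos hr0]
  have hy₁lt : ‖y₁‖ < 1 := by
    rw [hny, div_lt_one hwpos]
    exact hrw
  have hy₁1 : y₁ ∈ ball (0 : ℂ) 1 := mem_ball_zero_iff.2 hy₁lt
  have hy₁b : y₁ ∈ ball (0 : ℂ) r := ball_subset_ball hr.le hy₁1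
  set g : ℂ → ℂ := fun y => (r : ℂ) * kk β r c₀ y with hg
  have hgne : ∀ y ∈ closedBall (0 : ℂ) 1, g y ≠ 0 := fun y hy =>
    mul_ne_zero hrC (kk_ne hβ hψ hr0 hc₀ (closedBall_subset_ball hr hy))
  have hga : AnalyticOnNhd ℂ g (closedBall 0 1) := by
    have := kk_analytic (z := c₀) hβ hr
    rwa [abs_one] at this
  set v : ℂ → ℝ := fun y => Real.log ‖(ρ : ℂ) * (g y)⁻¹‖ with hv
  have hvh : InnerProductSpace.HarmonicOnNhd v (closedBall 0 1) := by
    intro y hy
    apply AnalyticAt.harmonicAt_log_norm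
    · exact analyticAt_const.mul ((hga y hy).inv (hgne y hy))
    · exact mul_ne_zero hρC (inv_ne_zero (hgne y hy))
  have hP := InnerProductSpace.HarmonicOnNhd.circleAverage_poissonKernel_smul hvh hy₁1
  -- the value at `y₁`
  have h1 : ψ w - c₀ = w * kk β r c₀ y₁ := by
    have := psi_kk (z := c₀) hβ hψ hr0 hy₁0 hy₁b
    rwa [hry] at this
  have hk1 : kk β r c₀ y₁ ≠ 0 := kk_ne hβ hψ hr0 hc₀ hy₁b
  have hkpos : 0 < ‖kk β r c₀ y₁‖ := norm_pos_iff.2 hk1
  have h2 : Real.log (ρ / ‖ψ w - c₀‖) ≤ v y₁ := by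
    rw [hv, h1]
    simp only
    rw [norm_mul, norm_mul, norm_inv, hg]
    simp only
    rw [norm_mul, Complex.norm_real, Complex.norm_real, Real.norm_eq_abs, Real.norm_eq_abs,
      abs_of_pos hr0, abs_of_pos hρ]
    apply Real.log_le_log (by positivity)
    rw [div_eq_mul_inv]
    apply mul_le_mul_of_nonneg_left _ hρ.le
    apply inv_anti₀ (by positivity)
    exact mul_le_mul_of_nonneg_right hrw.le hkpos.le
  refine h2.trans ?_
  rw [← hP]
  have hCpos : 0 ≤ (‖w‖ + r) / (‖w‖ - r) := div_nonneg (by linarith) (by linarith)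
  have hker : ∀ y ∈ sphere (0 : ℂ) |(1 : ℝ)|, 0 ≤ poissonKernel 0 y₁ y ∧
      poissonKernel 0 y₁ y ≤ (‖w‖ + r) / (‖w‖ - r) := by
    intro y hy
    have hy1 : ‖y‖ = 1 := by
      rw [abs_one] at hy
      exact mem_sphere_zero_iff_norm.1 hy
    rw [poissonKernel_def, sub_zero, sub_zero, hy1]
    have h3 : 1 - ‖y₁‖ ≤ ‖y - y₁‖ := by
      have := norm_sub_norm_le y y₁
      rwa [hy1] at this
    have h4 : 0 < 1 - ‖y₁‖ := by linarith
    have h5 : 0 < ‖y - y₁‖ := by linarith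
    have hyn : 0 ≤ ‖y₁‖ := norm_nonneg _
    constructor
    · apply div_nonneg _ (by positivity)
      nlinarith
    · have h6 : (‖w‖ + r) / (‖w‖ - r) = (1 + ‖y₁‖) / (1 - ‖y₁‖) := by
        rw [hny]
        have h7 : ‖w‖ - r ≠ 0 := by linarith
        field_simp
      rw [h6, div_le_div_iff₀ (by positivity) h4]
      have h8 : (1 - ‖y₁‖) ^ 2 ≤ ‖y - y₁‖ ^ 2 := pow_le_pow_left₀ h4.le h3 2
      nlinarith
  have hcv : ContinuousOn v (sphere (0 : ℂ) |(1 : ℝ)|) := by
    intro y hy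
    rw [abs_one] at hy
    have hyc := sphere_subset_closedBall hy
    have h3 : ContinuousAt (fun y => (ρ : ℂ) * (g y)⁻¹) y :=
      (analyticAt_const.mul ((hga y hyc).inv (hgne y hyc))).continuousAt
    exact (ContinuousAt.log h3.norm (norm_ne_zero_iff.2
      (mul_ne_zero hρC (inv_ne_zero (hgne y hyc))))).continuousWithinAt
  have hcP : ContinuousOn (poissonKernel 0 y₁) (sphere (0 : ℂ) |(1 : ℝ)|) := by
    rw [poissonKernel_eq_re_herglotzRieszKernel]
    exact Complex.continuous_re.comp_continuousOn (continuousOn_herglotzRieszKernel_sphere hy₁1)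
  have hmax : ContinuousOn (fun y => max 0 (v y)) (sphere (0 : ℂ) |(1 : ℝ)|) :=
    continuousOn_const.sup hcv
  have havg : Real.circleAverage (fun x => max 0 (Real.log (ρ / ‖ψ (r * x) - c₀‖))) 0 1 =
      Real.circleAverage (fun y => max 0 (v y)) 0 1 := by
    rw [avg_eq hβ hψ hr (fun t => max 0 (Real.log (ρ / t)))]
    apply Real.circleAverage_congr_sphere
    intro y hy
    have e : ‖(ρ : ℂ) * (g y)⁻¹‖ = ρ / ‖(r : ℂ) * kk β r c₀ y‖ := by
      rw [norm_mul (ρ : ℂ), norm_inv, Complex.norm_real, Real.norm_eq_abs, abs_of_pos hρ,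
        ← div_eq_mul_inv]
    simp only [hv]
    rw [e]
  rw [havg]
  have hmono : Real.circleAverage (poissonKernel 0 y₁ • v) 0 1 ≤
      Real.circleAverage (fun y => ((‖w‖ + r) / (‖w‖ - r)) • max 0 (v y)) 0 1 := by
    apply Real.circleAverage_mono
    · exact (hcP.smul hcv).circleIntegrable'
    · have h6 : ContinuousOn (fun y => ((‖w‖ + r) / (‖w‖ - r)) • max 0 (v y))
          (sphere (0 : ℂ) |(1 : ℝ)|) := hmax.const_smul ((‖w‖ + r) / (‖w‖ - r))
      exact h6.circleIntegrable'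
    · intro y hy
      obtain ⟨h3, h4⟩ := hker y hy
      simp only [Pi.smul_apply', smul_eq_mul]
      calc poissonKernel 0 y₁ y * v y ≤ poissonKernel 0 y₁ y * max 0 (v y) :=
            mul_le_mul_of_nonneg_left (le_max_right _ _) h3
        _ ≤ _ := mul_le_mul_of_nonneg_right h4 (le_max_left _ _)
  refine hmono.trans (le_of_eq ?_)
  rw [Real.circleAverage_fun_smul, smul_eq_mul]

end Pool.Agent.Y165.PC
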