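import Pool.Agent.Y811.PC.Stm3

/-!
# The exterior map near infinity: `ψ (r / y) - z = (r / y) * kk y`
-/

set_option autoImplicit false

namespace Pool.Agent.Y165.PC

open Complex Metric Set Filter Topology Pool.Agent.H712R2 Pool.Agent.H713R2 N62a1eb23

/-- `kk y = (y / r) (ψ (r / y) - z)`, `kk 0 = 1` -/
noncomputable def kk (β : ℂ → ℂ) (r : ℝ) (z y : ℂ) : ℂ := β (y / r) - z * (y / r)

section

variable {d : ℕ} {β ψ : ℂ → ℂ} {r : ℝ} {z : ℂ}

lemma div_mem_ball {y : ℂ} (hr : 0 < r) (hy : y ∈ ball (0 : ℂ) r) : y / r ∈ ball (0 : ℂ) 1 := by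
  rw [mem_ball_zero_iff] at hy ⊢
  rw [norm_div, Complex.norm_real, Real.norm_eq_abs, abs_of_pos hr, div_lt_one hr]
  exact hy

lemma kk_diff (hβ : IsBeta d β) (hr : 0 < r) : DifferentiableOn ℂ (kk β r z) (ball 0 r) := by
  have h1 : DifferentiableOn ℂ (fun y : ℂ => y / r) (ball 0 r) := by fun_prop
  have h2 : DifferentiableOn ℂ (fun y : ℂ => β (y / r)) (ball 0 r) :=
    hβ.diff.comp h1 (fun y hy => div_mem_ball hr hy)
  exact h2.sub ((differentiableOn_const z).mul h1)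

lemma kk_zero (hβ : IsBeta d β) : kk β r z 0 = 1 := by
  unfold kk
  rw [zero_div, hβ.zero, mul_zero, sub_zero]

lemma one_lt_norm_div {y : ℂ} (hy0 : y ≠ 0) (hr : 0 < r) (hy : y ∈ ball (0 : ℂ) r) :
    1 < ‖(r : ℂ) / y‖ := by
  rw [mem_ball_zero_iff] at hy
  rw [norm_div, Complex.norm_real, Real.norm_eq_abs, abs_of_pos hr,
    one_lt_div (norm_pos_iff.2 hy0)]
  exact hy

lemma psi_kk (hβ : IsBeta d β) (hψ : IsExteriorMap (multibrotSet d) ψ) (hr : 0 < r) {y : ℂ}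
    (hy0 : y ≠ 0) (hy : y ∈ ball (0 : ℂ) r) : ψ (r / y) - z = (r / y) * kk β r z y := by
  have hrC : (r : ℂ) ≠ 0 := by exact_mod_cast hr.ne'
  rw [exteriorMap_unique hβ hψ (one_lt_norm_div hy0 hr hy), inv_div]
  unfold kk
  field_simp

lemma kk_eq_zero (hβ : IsBeta d β) (hψ : IsExteriorMap (multibrotSet d) ψ) (hr : 0 < r) {y : ℂ}
    (hy : y ∈ ball (0 : ℂ) r) (h : kk β r z y = 0) : y ≠ 0 ∧ ψ (r / y) = z := by
  have hy0 : y ≠ 0 := by
    rintro rfl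
    rw [kk_zero hβ] at h
    exact one_ne_zero h
  refine ⟨hy0, ?_⟩
  have h1 := psi_kk (z := z) hβ hψ hr hy0 hy
  rw [h, mul_zero, sub_eq_zero] at h1
  exact h1

lemma kk_ne (hβ : IsBeta d β) (hψ : IsExteriorMap (multibrotSet d) ψ) (hr : 0 < r)
    (hz : z ∈ multibrotSet d) {y : ℂ} (hy : y ∈ ball (0 : ℂ) r) : kk β r z y ≠ 0 := by
  intro h
  obtain ⟨hy0, h1⟩ := kk_eq_zero hβ hψ hr hy h
  have h2 : ψ (r / y) ∈ (multibrotSet d)ᶜ := by
    rw [← hψ.image]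
    exact mem_image_of_mem ψ (one_lt_norm_div hy0 hr hy)
  rw [h1] at h2
  exact h2 hz

lemma closedBall_sub (hr : 1 < r) : closedBall (0 : ℂ) |(1 : ℝ)| ⊆ ball (0 : ℂ) r := by
  rw [abs_one]
  exact closedBall_subset_ball hr

lemma norm_psi_sub (hβ : IsBeta d β) (hψ : IsExteriorMap (multibrotSet d) ψ) (hr : 1 < r) {y : ℂ}
    (hy : y ∈ sphere (0 : ℂ) |(1 : ℝ)|) : ‖ψ (r * y⁻¹) - z‖ = ‖(r : ℂ) * kk β r z y‖ := by
  have hy1 : ‖y‖ = 1 := by
    rw [abs_one] at hy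
    exact mem_sphere_zero_iff_norm.1 hy
  have hy0 : y ≠ 0 := by
    rw [← norm_pos_iff, hy1]
    norm_num
  have hyb : y ∈ ball (0 : ℂ) r := by
    rw [mem_ball_zero_iff, hy1]
    exact hr
  rw [← div_eq_mul_inv, psi_kk hβ hψ (by linarith) hy0 hyb, norm_mul, norm_mul, norm_div, hy1,
    div_one]

/-- circle averages in the coordinate `y` -/
lemma avg_eq (hβ : IsBeta d β) (hψ : IsExteriorMap (multibrotSet d) ψ) (hr : 1 < r) (F : ℝ → ℝ) :
    Real.circleAverage (fun x => F ‖ψ (r * x) - z‖) 0 1 =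
      Real.circleAverage (fun y => F ‖(r : ℂ) * kk β r z y‖) 0 1 := by
  rw [← Real.circleAverage_zero_one_congr_inv]
  apply Real.circleAverage_congr_sphere
  intro y hy
  simp only
  rw [norm_psi_sub hβ hψ hr hy]

lemma kk_analytic (hβ : IsBeta d β) (hr : 1 < r) :
    AnalyticOnNhd ℂ (fun y => (r : ℂ) * kk β r z y) (closedBall 0 |(1 : ℝ)|) := by
  have h1 : AnalyticOnNhd ℂ (kk β r z) (ball 0 r) :=
    (kk_diff hβ (by linarith)).analyticOnNhd isOpen_ball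
  have h2 : AnalyticOnNhd ℂ (fun y => (r : ℂ) * kk β r z y) (ball 0 r) :=
    analyticOnNhd_const.mul h1
  exact h2.mono (closedBall_sub hr)

end

end Pool.Agent.Y165.PC
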