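import Pool.Agent.Y811.PC.Stm

set_option autoImplicit false

namespace Pool.Agent.Y165.PC

open Complex Metric Set Filter Topology Pool.Agent.Y811.PC

theorem t_MUL : S_MUL := by
  intro q l₀ hq h0 δ hδ
  have hl0 : ‖l₀‖ = 1 := norm_eq_one_of_pow_eq_one h0 (by omega)
  have hne : l₀ ^ q ≠ 0 := by rw [h0]; exact one_ne_zero
  have hq1 : (1 : ℝ) ≤ q := by exact_mod_cast hq
  have hd : HasDerivAt (fun l : ℂ => 1 - (l ^ q)⁻¹) ((q : ℂ) * l₀ ^ (q - 1)) l₀ := by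
    have h1 := (hasDerivAt_pow q l₀).inv hne
    have h2 := h1.const_sub 1
    exact h2.congr_deriv (by rw [h0]; ring)
  have hlo := hd.isLittleO
  have h3 := hlo.def (c := δ) hδ
  rw [Metric.eventually_nhds_iff] at h3
  obtain ⟨r, hr, h4⟩ := h3
  refine ⟨r / 2, by positivity, ?_⟩
  intro l hl
  have h5 := h4 (y := l) (by rw [dist_eq_norm]; linarith)
  simp only [h0, inv_one, sub_self, sub_zero, smul_eq_mul] at h5
  have h6 : ‖(l - l₀) * ((q : ℂ) * l₀ ^ (q - 1))‖ = q * ‖l - l₀‖ := by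
    rw [norm_mul, norm_mul, norm_pow, hl0, one_pow, mul_one, Complex.norm_natCast]
    ring
  have h7 : δ * ‖l - l₀‖ ≤ δ * (q * ‖l - l₀‖) := by
    apply mul_le_mul_of_nonneg_left _ hδ.le
    nlinarith [norm_nonneg (l - l₀)]
  have h8 := norm_sub_norm_le (1 - (l ^ q)⁻¹) ((l - l₀) * ((q : ℂ) * l₀ ^ (q - 1)))
  have h9 := norm_sub_norm_le ((l - l₀) * ((q : ℂ) * l₀ ^ (q - 1))) (1 - (l ^ q)⁻¹)
  rw [norm_sub_rev ((l - l₀) * ((q : ℂ) * l₀ ^ (q - 1))) (1 - (l ^ q)⁻¹)] at h9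
  constructor <;> linarith

end Pool.Agent.Y165.PC
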